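import Mathlib
import Pool.Agent.DiskDim.Main

open Set Metric
open scoped ENNReal

namespace Pool.Agent.Results.MP_45b0f4_an.FiveFourths

/-- Let `ball (c i) (r i)` be a finite or countable family of pairwise disjoint open disks contained
in the closed disk `closedBall x₀ R` of the Euclidean plane, none of them equal to the whole open disk
`ball x₀ R`. Then the residual set has Hausdorff dimension at least `5/4`. -/
theorem result {ι : Type} [Countable ι] (x₀ : EuclideanSpace ℝ (Fin 2)) (R : ℝ) (hR : 0 < R)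
    (c : ι → EuclideanSpace ℝ (Fin 2)) (r : ι → ℝ) (hr : ∀ i, 0 < r i)
    (hsub : ∀ i, ball (c i) (r i) ⊆ closedBall x₀ R)
    (hdisj : Pairwise (fun i j => Disjoint (ball (c i) (r i)) (ball (c j) (r j))))
    (hne : ∀ i, ball (c i) (r i) ≠ ball x₀ R) :
    (5 / 4 : ℝ≥0∞) ≤ dimH (closedBall x₀ R \ ⋃ i, ball (c i) (r i)) :=
  DiskDim.main_euclidean x₀ R hR c r hr hsub hdisj hne

end Pool.Agent.Results.MP_45b0f4_an.FiveFourths
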